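import Pool.Agent.Helper35.MS.StK
import Pool.Agent.Helper26.MS.M_SIM

/-!
# Project MS, module INJ: no double points if the Willmore energy is less than `32π`
-/

set_option autoImplicit false

namespace Helper94.MS

open Helper35.MS Helper35.PI Helper35.PI2 Helper32.CL
open scoped ContDiff Manifold Topology ENNReal BigOperators
open MeasureTheory Set Filter

/-- lower bound for a neighbourhood, small scales -/
private lemma lowE {M : Type} [TopologicalSpace M] [MeasurableSpace M] [BorelSpace M]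
    (μ : Measure M) (ρ : M → ℝ) (hρ : Continuous ρ) (hρ0 : ∀ p, 0 ≤ ρ p)
    (U : Set M) (hU : IsOpen U) (η : ℝ) (hη : 0 < η) (hη1 : η < 1)
    (hSB : ∀ᶠ ε in 𝓝[>] (0 : ℝ),
      ENNReal.ofReal ((1 - η) * Real.pi * ε ^ 2) ≤ μ (U ∩ {p | ρ p ≤ ε})) (n : ℕ) :
    ∀ᶠ ε in 𝓝[>] (0 : ℝ), ENNReal.ofReal (2 * ((1 - η) * Real.pi) *
        ((1 - η) - (1 - η) ^ n - (1 - η) ^ (n + 1) + (1 - η) ^ (2 * n))) ≤
      ∫⁻ p in U, ENNReal.ofReal (2 * ε ^ 2 / (ρ p ^ 2 + ε ^ 2) ^ 2) ∂μ := by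
  have hx0 : 0 < 1 - η := by linarith
  have hx1 : 1 - η < 1 := by linarith
  have hθ : 0 ≤ (1 - η) * Real.pi := mul_nonneg hx0.le Real.pi_pos.le
  have hev : ∀ j ∈ Finset.range n, ∀ᶠ ε in 𝓝[>] (0 : ℝ),
      ENNReal.ofReal ((1 - η) * Real.pi * (ε * Real.sqrt (((1 - η) ^ j)⁻¹ - 1)) ^ 2) ≤
      μ (U ∩ {p | ρ p ≤ ε * Real.sqrt (((1 - η) ^ j)⁻¹ - 1)}) := by
    intro j _
    rcases Nat.eq_zero_or_pos j with hj | hj
    · subst hj
      refine Eventually.of_forall fun ε => ?_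
      simp
    · have hlt : (1 - η) ^ j < 1 := pow_lt_one₀ hx0.le hx1 hj.ne'
      have hs : 0 < Real.sqrt (((1 - η) ^ j)⁻¹ - 1) := by
        apply Real.sqrt_pos.2
        have : 1 < ((1 - η) ^ j)⁻¹ := (one_lt_inv₀ (pow_pos hx0 j)).2 hlt
        linarith
      have ht : Tendsto (fun ε : ℝ => ε * Real.sqrt (((1 - η) ^ j)⁻¹ - 1)) (𝓝[>] 0) (𝓝[>] 0) := by
        apply tendsto_nhdsWithin_iff.2
        constructor
        · apply Tendsto.mono_left _ nhdsWithin_le_nhds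
          have hc : Continuous fun ε : ℝ => ε * Real.sqrt (((1 - η) ^ j)⁻¹ - 1) := by fun_prop
          have := hc.tendsto 0
          rwa [zero_mul] at this
        · filter_upwards [self_mem_nhdsWithin] with ε hε
          exact mul_pos hε hs
      exact ht.eventually hSB
  have hev2 := (Finset.eventually_all (Finset.range n)).2 hev
  filter_upwards [hev2, self_mem_nhdsWithin] with ε hε1 hε
  exact Helper26.MS.lowS μ U hU.measurableSet ρ hρ.measurable hρ0 ε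
    ((1 - η) * Real.pi) (1 - η) hε hθ hx0 hx1 n hε1

/-- the measure theoretic part: two sheets through the same point -/
private lemma coreJ {M : Type} [TopologicalSpace M] [MeasurableSpace M] [BorelSpace M]
    (μ : Measure M) (hint : ∀ g : M → ℝ, Continuous g → Integrable g μ) (ρ : M → ℝ)
    (b : ℝ) (hb : 0 ≤ b) (hρ : Continuous ρ) (hρ0 : ∀ p, 0 ≤ ρ p) (U V : Set M) (hU : IsOpen U)
    (hV : IsOpen V) (hUV : Disjoint U V)
    (hm : ∀ ε : ℝ, 0 < ε → ∫ p, 2 * ε ^ 2 / (ρ p ^ 2 + ε ^ 2) ^ 2 ∂μ ≤ b)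
    (hSU : ∀ η : ℝ, 0 < η → ∀ᶠ ε in 𝓝[>] (0 : ℝ),
      ENNReal.ofReal ((1 - η) * Real.pi * ε ^ 2) ≤ μ (U ∩ {p | ρ p ≤ ε}))
    (hSV : ∀ η : ℝ, 0 < η → ∀ᶠ ε in 𝓝[>] (0 : ℝ),
      ENNReal.ofReal ((1 - η) * Real.pi * ε ^ 2) ≤ μ (V ∩ {p | ρ p ≤ ε})) :
    4 * Real.pi ≤ b := by
  -- lower bound for fixed parameters
  have hlow : ∀ η : ℝ, 0 < η → η < 1 → ∀ n : ℕ,
      2 * ((1 - η) * Real.pi) *
        ((1 - η) - (1 - η) ^ n - (1 - η) ^ (n + 1) + (1 - η) ^ (2 * n)) +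
      2 * ((1 - η) * Real.pi) *
        ((1 - η) - (1 - η) ^ n - (1 - η) ^ (n + 1) + (1 - η) ^ (2 * n)) ≤ b := by
    intro η hη hη1 n
    obtain ⟨ε, ⟨hε1, hε2⟩, hε0⟩ := (((lowE μ ρ hρ hρ0 U hU η hη hη1 (hSU η hη) n).and
      (lowE μ ρ hρ hρ0 V hV η hη hη1 (hSV η hη) n)).and self_mem_nhdsWithin).exists
    have hε : 0 < ε := hε0
    have hden : ∀ p, 0 < ρ p ^ 2 + ε ^ 2 := fun p => by positivity
    have hLc : Continuous fun p => 2 * ε ^ 2 / (ρ p ^ 2 + ε ^ 2) ^ 2 := by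
      apply Continuous.div (by fun_prop) (by fun_prop)
      intro p
      exact (pow_pos (hden p) 2).ne'
    have hL0 : ∀ p, 0 ≤ 2 * ε ^ 2 / (ρ p ^ 2 + ε ^ 2) ^ 2 := fun p => by positivity
    rw [← ENNReal.ofReal_le_ofReal_iff hb]
    calc ENNReal.ofReal (_ + _) ≤ _ := ENNReal.ofReal_add_le
      _ ≤ ∫⁻ p in U, ENNReal.ofReal (2 * ε ^ 2 / (ρ p ^ 2 + ε ^ 2) ^ 2) ∂μ +
          ∫⁻ p in V, ENNReal.ofReal (2 * ε ^ 2 / (ρ p ^ 2 + ε ^ 2) ^ 2) ∂μ :=
        add_le_add hε1 hε2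
      _ = ∫⁻ p in U ∪ V, ENNReal.ofReal (2 * ε ^ 2 / (ρ p ^ 2 + ε ^ 2) ^ 2) ∂μ :=
        (lintegral_union hV.measurableSet hUV).symm
      _ ≤ ∫⁻ p, ENNReal.ofReal (2 * ε ^ 2 / (ρ p ^ 2 + ε ^ 2) ^ 2) ∂μ :=
        setLIntegral_le_lintegral _ _
      _ = ENNReal.ofReal (∫ p, 2 * ε ^ 2 / (ρ p ^ 2 + ε ^ 2) ^ 2 ∂μ) :=
        (ofReal_integral_eq_lintegral_ofReal (hint _ hLc) (Eventually.of_forall hL0)).symm
      _ ≤ ENNReal.ofReal b := ENNReal.ofReal_le_ofReal (hm ε hε)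
  -- limit in n
  have hlow2 : ∀ η : ℝ, 0 < η → η < 1 → 4 * Real.pi * ((1 - η) * (1 - η)) ≤ b := by
    intro η hη hη1
    have hx0 : 0 ≤ 1 - η := by linarith
    have hx1 : 1 - η < 1 := by linarith
    have t1 : Tendsto (fun n : ℕ => (1 - η) ^ n) atTop (𝓝 0) :=
      tendsto_pow_atTop_nhds_zero_of_lt_one hx0 hx1
    have t2 : Tendsto (fun n : ℕ => (1 - η) ^ (n + 1)) atTop (𝓝 0) :=
      t1.comp (tendsto_add_atTop_nat 1)
    have t3 : Tendsto (fun n : ℕ => (1 - η) ^ (2 * n)) atTop (𝓝 0) := by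
      have : Tendsto (fun n : ℕ => 2 * n) atTop atTop :=
        tendsto_id.const_mul_atTop' (by norm_num)
      exact t1.comp this
    have t4 : Tendsto (fun n : ℕ => 2 * ((1 - η) * Real.pi) *
        ((1 - η) - (1 - η) ^ n - (1 - η) ^ (n + 1) + (1 - η) ^ (2 * n))) atTop
        (𝓝 (2 * ((1 - η) * Real.pi) * ((1 - η) - 0 - 0 + 0))) :=
      (((tendsto_const_nhds (x := (1 - η))).sub t1).sub t2).add t3 |>.const_mul
        (2 * ((1 - η) * Real.pi))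
    have t5 := le_of_tendsto (t4.add t4) (Eventually.of_forall fun n => hlow η hη hη1 n)
    refine le_trans (le_of_eq ?_) t5
    ring
  have t6 : Tendsto (fun η : ℝ => 4 * Real.pi * ((1 - η) * (1 - η))) (𝓝[>] 0)
      (𝓝 (4 * Real.pi)) := by
    apply Tendsto.mono_left _ nhdsWithin_le_nhds
    have hc : Continuous fun η : ℝ => 4 * Real.pi * ((1 - η) * (1 - η)) := by fun_prop
    have := hc.tendsto 0
    have e : 4 * Real.pi * ((1 - (0 : ℝ)) * (1 - 0)) = 4 * Real.pi := by ring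
    rwa [e] at this
  refine le_of_tendsto t6 ?_
  have hlt : ∀ᶠ η in 𝓝[>] (0 : ℝ), η < 1 := nhdsWithin_le_nhds (Iio_mem_nhds one_pos)
  filter_upwards [self_mem_nhdsWithin, hlt] with η hη hη1
  exact hlow2 η hη hη1

/-- INJ. -/
theorem hINJ (hPRJ : StPRJ) (hFVJ : StFVJ) (hSBJ : StSBJ) (hMUJ : StMUJ) (hI4J : StI4J) :
    StINJ := by
  intro N M _ _ _ _ _ _ _ J F c χ hS t ht hW p q hpq
  by_contra hne
  have hpq' : F p t = F q t := hpq
  obtain ⟨i1, i2, -, -⟩ := hI4J 2 N M J F hS.mcf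
  have hF : Continuous (fun q => F q t) := Helper26.MS.slJ J F i1 t ht
  have hH : Continuous (fun q => HH (n := 2) F q t) := Helper26.MS.slJ J (HH (n := 2) F) i2 t ht
  have hint' : ∀ g : M → ℝ, Continuous g → Integrable g (muM 2 F c χ t) := by
    obtain ⟨s, hs0, hs⟩ := hMUJ 2 N M J F c χ hS
    exact fun g hg => ((hs t ht).2.2 g hg).1
  have hρc : Continuous (fun x => ‖F x t - F p t‖) := (hF.sub continuous_const).norm
  obtain ⟨U, V, hU, hV, hpU, hqV, hUV⟩ := t2_separation hne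
  have hg0 : ∀ x, ‖gdM 2 F t (fun _ => (1 : ℝ)) x‖ ≤ (fun _ : M => (0 : ℝ)) x := by
    intro x
    have : gdM 2 F t (fun _ => (1 : ℝ)) x = 0 := by
      unfold gdM
      simp
    rw [this, norm_zero]
  have hg : ∀ ε : ℝ, 0 < ε → ∫ x, 2 * ε ^ 2 / (‖F x t - F p t‖ ^ 2 + ε ^ 2) ^ 2 ∂muM 2 F c χ t ≤
      1 / 8 * wI F c χ t := by
    intro ε hε
    have := Helper26.MS.geoS hFVJ hPRJ J F c χ hS t ht hint' hF hH (fun _ => 1) (fun _ => 0)
      contMDiff_const continuous_const (fun _ => zero_le_one) hg0 p ε hε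
    simpa [wI] using this
  have hW0 : 0 ≤ wI F c χ t := by
    unfold wI
    apply integral_nonneg
    intro x
    show 0 ≤ YF F x t
    unfold YF
    positivity
  have h4 := coreJ (muM 2 F c χ t) hint' (fun x => ‖F x t - F p t‖) (1 / 8 * wI F c χ t)
    (by positivity) hρc (fun _ => norm_nonneg _) U V hU hV hUV hg
    (fun η hη => hSBJ N M J F c χ hS t ht p U (hU.mem_nhds hpU) η hη)
    (fun η hη => by
      have := hSBJ N M J F c χ hS t ht q V (hV.mem_nhds hqV) η hη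
      rw [← hpq'] at this
      exact this)
  linarith

end Helper94.MS
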