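import Pool.Agent.Helper35.MS.StD

/-!
# Project MS, module PJ1: jets of products with functions of time
-/

set_option autoImplicit false

namespace Helper94.MS

open Helper35.MS Helper35.PI Helper35.PI2 Helper32.CL
open scoped ContDiff Manifold Topology ENNReal BigOperators
open MeasureTheory Set Filter

/-- value, gradient and heat operator of a `C³` function -/
private structure JJ (z : EE 2 × ℝ) (φ : EE 2 × ℝ → ℝ) (v : ℝ) (g : Fin 2 → ℝ) (h : ℝ) : Prop where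
  cd : ContDiffAt ℝ 3 φ z
  v : φ z = v
  g : ∀ k, jg φ z k = g k
  h : jh φ z = h

private lemma cd2 {z : EE 2 × ℝ} {φ : EE 2 × ℝ → ℝ} (h : ContDiffAt ℝ 3 φ z) :
    ContDiffAt ℝ 2 φ z := h.of_le (by norm_num)

private lemma JJ.sub (hJA : StJA) {z : EE 2 × ℝ} {φ ψ : EE 2 × ℝ → ℝ} {v v' : ℝ}
    {g g' : Fin 2 → ℝ} {h h' : ℝ} (a : JJ z φ v g h) (b : JJ z ψ v' g' h') :
    JJ z (fun z => φ z - ψ z) (v - v') (fun k => g k - g' k) (h - h') := by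
  obtain ⟨-, -, h3, -, -⟩ := hJA 2 ℝ z
  obtain ⟨-, -, h4, h5⟩ := h3 φ ψ (cd2 a.cd) (cd2 b.cd)
  refine ⟨a.cd.sub b.cd, ?_, ?_, ?_⟩
  · rw [a.v, b.v]
  · intro k
    rw [h4, a.g, b.g]
  · rw [h5, a.h, b.h]

private lemma JJ.smul (hJA : StJA) {z : EE 2 × ℝ} {φ : EE 2 × ℝ → ℝ} {v : ℝ}
    {g : Fin 2 → ℝ} {h : ℝ} (a : JJ z φ v g h) (c : ℝ) :
    JJ z (fun z => c * φ z) (c * v) (fun k => c * g k) (c * h) := by
  obtain ⟨-, -, -, h3, -⟩ := hJA 2 ℝ z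
  obtain ⟨h4, h5⟩ := h3 φ c (cd2 a.cd)
  refine ⟨contDiffAt_const.mul a.cd, ?_, ?_, ?_⟩
  · rw [a.v]
  · intro k
    have h6 := h4 k
    rw [a.g] at h6
    exact h6
  · rw [a.h] at h5
    exact h5

private lemma JJ.mul (hJB : StJB) {z : EE 2 × ℝ} {φ ψ : EE 2 × ℝ → ℝ} {v v' : ℝ}
    {g g' : Fin 2 → ℝ} {h h' : ℝ} (a : JJ z φ v g h) (b : JJ z ψ v' g' h') :
    JJ z (fun z => φ z * ψ z) (v * v') (fun k => g k * v' + v * g' k)
      (h * v' + v * h' - 2 * ∑ k, g k * g' k) := by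
  obtain ⟨h3, -⟩ := hJB 2 0 z
  obtain ⟨h4, h5⟩ := h3 φ ψ (cd2 a.cd) (cd2 b.cd)
  refine ⟨a.cd.mul b.cd, ?_, ?_, ?_⟩
  · rw [a.v, b.v]
  · intro k
    rw [h4, a.g, b.g, a.v, b.v]
  · rw [h5, a.h, b.h, a.v, b.v]
    simp only [a.g, b.g]

private lemma JJ.cst (hJA : StJA) (z : EE 2 × ℝ) (c : ℝ) :
    JJ z (fun _ => c) c (fun _ => 0) 0 := by
  obtain ⟨-, h2, -⟩ := hJA 2 ℝ z
  exact ⟨contDiffAt_const, rfl, (h2 c).1, (h2 c).2⟩

private lemma JJ.eq {z : EE 2 × ℝ} {φ φ' : EE 2 × ℝ → ℝ} {v v' : ℝ} {g g' : Fin 2 → ℝ}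
    {h h' : ℝ} (a : JJ z φ v g h) (e1 : φ' = φ) (e2 : v' = v) (e3 : ∀ k, g' k = g k)
    (e4 : h' = h) : JJ z φ' v' g' h' := by
  obtain rfl : g' = g := funext e3
  rw [e1, e2, e4]
  exact a

/-- the function of time -/
private lemma JJ.tm (z : EE 2 × ℝ) :
    JJ z (fun z : EE 2 × ℝ => 1 - 4 * z.2) (1 - 4 * z.2) (fun _ => 0) (-4) := by
  have hF : ∀ y : EE 2 × ℝ, HasFDerivAt (fun z : EE 2 × ℝ => 1 - 4 * z.2)
      (-((4 : ℝ) • ContinuousLinearMap.snd ℝ (EE 2) ℝ)) y := by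
    intro y
    exact ((hasFDerivAt_snd (p := y)).const_mul (4 : ℝ)).const_sub 1
  have hg : ∀ (y : EE 2 × ℝ) (k : Fin 2), jg (fun z : EE 2 × ℝ => 1 - 4 * z.2) y k = 0 := by
    intro y k
    unfold jg
    rw [(hF y).fderiv]
    simp
  refine ⟨?_, rfl, hg z, ?_⟩
  · exact (contDiff_const.sub (contDiff_const.mul contDiff_snd)).contDiffAt
  · have hgg : ∀ k, jgg (fun z : EE 2 × ℝ => 1 - 4 * z.2) z k k = 0 := by
      intro k
      unfold jgg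
      have h1 : (fun z' => jg (fun z : EE 2 × ℝ => 1 - 4 * z.2) z' k) = fun _ => (0 : ℝ) :=
        funext fun y => hg y k
      rw [h1]
      unfold jg
      simp
    unfold jh jt
    rw [(hF z).fderiv]
    simp only [hgg]
    simp

theorem hPJ1 (hG7 : StG7) (hG8 : StG8) (hG9 : StG9) (hJA : StJA) (hJB : StJB) : StPJ1 := by
  intro N x₀ L u t₀ hu A T hA hT r2 S X V hr hS hX1 hV
  obtain ⟨x1, x2, x3, x4⟩ := hG7 2 N x₀ L u t₀ hu A T hA hT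
  obtain ⟨y1, y2, y3, y4⟩ := hG8 2 N x₀ L u t₀ hu A T hA hT
  obtain ⟨z1, z2, z3, z4⟩ := hG9 2 N x₀ L u t₀ hu A T hA hT
  have jX : JJ (0, t₀) (Xf x₀ L u) (XX A) (gX A T) (hX A T) := ⟨x1, x2, x3, x4⟩
  have jY : JJ (0, t₀) (Yf x₀ L u) (YY A) (gY A T) (hY A T) := ⟨y1, y2, y3, y4⟩
  have jZ : JJ (0, t₀) (Zf x₀ L u) (ZZ A) (gZ A T) (hZ A T) := ⟨z1, z2, z3, z4⟩
  have jf : JJ (0, t₀) (fun z : EE 2 × ℝ => 1 - 4 * z.2) r2 (fun _ => 0) (-4) := by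
    rw [hr]
    exact JJ.tm (0, t₀)
  have jS : JJ (0, t₀) S (r2 * (2 * XX A - YY A) / 4)
      (fun k => (1 / 4) * (r2 * (2 * gX A T k - gY A T k)))
      (r2 * (2 * hX A T - hY A T) / 4 - (2 * XX A - YY A)) := by
    refine (JJ.smul hJA (JJ.mul hJB jf (JJ.sub hJA (JJ.smul hJA jX 2) jY)) (1 / 4)).eq ?_ ?_ ?_ ?_
    · rw [hS]
      funext z
      ring
    · ring
    · intro k
      ring
    · simp only [zero_mul, Finset.sum_const_zero]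
      ring
  have jX' : JJ (0, t₀) X (r2 * YY A / 4 - 1) (fun k => r2 * gY A T k / 4)
      (r2 * hY A T / 4 - YY A) := by
    refine (JJ.sub hJA (JJ.smul hJA (JJ.mul hJB jf jY) (1 / 4)) (JJ.cst hJA _ 1)).eq ?_ ?_ ?_ ?_
    · rw [hX1]
      funext z
      ring
    · ring
    · intro k
      ring
    · simp only [zero_mul, Finset.sum_const_zero]
      ring
  have jV : JJ (0, t₀) V (r2 ^ 2 * (ZZ A - YY A ^ 2 / 2) / 8)
      (fun k => r2 ^ 2 * (gZ A T k - YY A * gY A T k) / 8)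
      (r2 ^ 2 * (hZ A T - YY A * hY A T + (gY A T 0 ^ 2 + gY A T 1 ^ 2)) / 8
        - r2 * (ZZ A - YY A ^ 2 / 2)) := by
    refine (JJ.smul hJA (JJ.mul hJB (JJ.mul hJB jf jf)
      (JJ.sub hJA jZ (JJ.smul hJA (JJ.mul hJB jY jY) (1 / 2)))) (1 / 8)).eq ?_ ?_ ?_ ?_
    · rw [hV]
      funext z
      ring
    · ring
    · intro k
      ring
    · simp only [Fin.sum_univ_two]
      ring
  exact ⟨jS.cd, jX'.cd, jV.cd, jS.v, jX'.v, jV.v, fun k => ⟨jX'.g k, jV.g k⟩, jS.h, jX'.h, jV.h⟩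

end Helper94.MS
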